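import Pool.Agent.V11129.GonWedge

/-!
# Uniform subdivision can lower the gonality by an arbitrarily large amount
-/

set_option autoImplicit false

namespace Pool.Agent.Results.MP_d0d5df_co.UnboundedGap

open Pool.Agent.H997R3.Gon Pool.Agent.V11129.GonWedge

/-- the graph: `m + 1` copies of the eight-node network glued at one node -/
abbrev W (m : ℕ) : MGraph (wedge (n := 7) m Example.L Example.L_pos).Vert
    ((wedge (n := 7) m Example.L Example.L_pos).Edge ((m + 1) * 29)) :=
  (wedge (n := 7) m Example.L Example.L_pos).graph ((m + 1) * 29)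

theorem W_upper (m k : ℕ) (hk : 2 ≤ k) : ((W m).subdiv k).gon ≤ 28 * (m + 1) := by
  have hcp : Fintype.card (Net.Pair (7 + 1)) = 28 := Example.card_pair
  rcases Nat.even_or_odd' k with ⟨l, hl | hl⟩
  · have := wedge_upper (n := 7) m Example.L Example.L_pos ((m + 1) * 29) k hk
      (fun u v => (l : ℤ) * (Example.L u v : ℤ))
      (fun u v => by positivity) (fun u => by rw [Example.L_diag]; simp) (fun u v _ => by
        rw [Example.L_symm v u, hl]
        push_cast
        ring)
      (fun u v w => by
        have h1 : (Example.L u w : ℤ) ≤ (Example.L u v : ℤ) + (Example.L v w : ℤ) := by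
          exact_mod_cast Example.L_tri u v w
        have h2 : (0 : ℤ) ≤ l := by positivity
        nlinarith)
    rw [hcp] at this
    linarith
  · have := wedge_upper (n := 7) m Example.L Example.L_pos ((m + 1) * 29) k hk
      (fun u v => Example.T3 u v + ((l - 1 : ℕ) : ℤ) * (Example.L u v : ℤ))
      (fun u v => by
        have := Example.T3_nonneg u v
        positivity) (fun u => by rw [Example.L_diag, Example.T3_diag]; simp)
      (fun u v _ => by
        have h1 := Example.T3_symm u v
        have h2 : ((l - 1 : ℕ) : ℤ) = (l : ℤ) - 1 := by omega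
        simp only [h2]
        rw [Example.L_symm v u, hl]
        push_cast
        linarith)
      (fun u v w => by
        have h1 : (Example.L u w : ℤ) ≤ (Example.L u v : ℤ) + (Example.L v w : ℤ) := by
          exact_mod_cast Example.L_tri u v w
        have h2 : (0 : ℤ) ≤ ((l - 1 : ℕ) : ℤ) := by positivity
        have h3 := Example.T3_tri u v w
        nlinarith)
    rw [hcp] at this
    linarith

theorem W_lower (m : ℕ) : 29 * (m + 1) ≤ (W m).gon := by
  by_contra hcon
  have hcp : Fintype.card (Net.Pair (7 + 1)) + 1 = 29 := by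
    have : Fintype.card (Net.Pair (7 + 1)) = 28 := Example.card_pair
    omega
  obtain ⟨S, hd, hc, ht⟩ := wedge_lower (n := 7) m Example.L Example.L_pos ((m + 1) * 29) 29
    le_rfl hcp Example.L_symm (by
      have : (W m).gon < (m + 1) * 29 := by omega
      exact this)
  have hc' : ∀ u v, u ≠ v →
      (S u v + S 0 u - S 0 v) + (S v u + S 0 v - S 0 u) = (Example.L u v : ℤ) := by
    intro u v huv
    have := hc u v huv
    linarith
  refine Example.no_quasi (fun u v => S u v + S 0 u - S 0 v)
    (hc' 0 1 (by decide))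
    (hc' 0 2 (by decide))
    (hc' 1 2 (by decide))
    (hc' 0 3 (by decide))
    (hc' 1 3 (by decide))
    (hc' 2 3 (by decide))
    (hc' 0 4 (by decide))
    (hc' 1 4 (by decide))
    (hc' 2 4 (by decide))
    (hc' 3 4 (by decide))
    (hc' 0 5 (by decide))
    (hc' 1 5 (by decide))
    (hc' 2 5 (by decide))
    (hc' 3 5 (by decide))
    (hc' 4 5 (by decide))
    (hc' 0 6 (by decide))
    (hc' 1 6 (by decide))
    (hc' 2 6 (by decide))
    (hc' 3 6 (by decide))
    (hc' 4 6 (by decide))
    (hc' 5 6 (by decide))
    (hc' 0 7 (by decide))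
    (hc' 1 7 (by decide))
    (hc' 2 7 (by decide))
    (hc' 3 7 (by decide))
    (hc' 4 7 (by decide))
    (hc' 5 7 (by decide))
    (hc' 6 7 (by decide))
    (fun v => ?_) (fun u v => ?_) (fun u v w => ?_)
  · have := hd 0
    linarith
  · have := ht 0 u v
    linarith
  · have := ht u v w
    linarith

/-- **Uniform subdivision can lower the gonality by an arbitrarily large amount.**  For every
`m` there is a finite connected loopless multigraph `G` such that `gon(G) ≥ 29 (m + 1)` while
`gon(σ_k(G)) ≤ 28 (m + 1)` for every `k ≥ 2`.  In particular, for every odd `k ≥ 3` and every `N`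
there is a graph `G` with `gon(σ_k(G)) + N < gon(G)`. -/
theorem result :
    (∀ m : ℕ, ∃ (V E : Type) (_ : Fintype V) (_ : DecidableEq V) (_ : Fintype E)
      (_ : DecidableEq E) (G : MGraph V E), G.Connected ∧ 29 * (m + 1) ≤ G.gon ∧
        ∀ k : ℕ, 2 ≤ k → (G.subdiv k).gon ≤ 28 * (m + 1)) ∧
    (∀ N : ℕ, ∃ (V E : Type) (_ : Fintype V) (_ : DecidableEq V) (_ : Fintype E)
      (_ : DecidableEq E) (G : MGraph V E), G.Connected ∧
        ∀ k : ℕ, 3 ≤ k → Odd k → (G.subdiv k).gon + N < G.gon) := by
  have first : ∀ m : ℕ, ∃ (V E : Type) (_ : Fintype V) (_ : DecidableEq V) (_ : Fintype E)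
      (_ : DecidableEq E) (G : MGraph V E), G.Connected ∧ 29 * (m + 1) ≤ G.gon ∧
        ∀ k : ℕ, 2 ≤ k → (G.subdiv k).gon ≤ 28 * (m + 1) := fun m =>
    ⟨_, _, inferInstance, inferInstance, inferInstance, inferInstance, W m,
      wedge_connected (n := 7) m Example.L Example.L_pos ((m + 1) * 29) (by omega) (by norm_num),
      W_lower m, fun k hk => W_upper m k hk⟩
  refine ⟨first, ?_⟩
  intro N
  obtain ⟨V, E, i1, i2, i3, i4, G, hc, hl, hu⟩ := first N
  refine ⟨V, E, i1, i2, i3, i4, G, hc, ?_⟩
  intro k hk _
  have := hu k (by omega)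
  omega

end Pool.Agent.Results.MP_d0d5df_co.UnboundedGap
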